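import Pool.Agent.H685R3.Rules
import Pool.Agent.H685R3.RDefs

set_option autoImplicit false

namespace Pool.Agent.Results.MP_917879_lc.ClosedRules

open Pool.Agent.H685R3

/-- There are one closed set `C`, one continuous map `Φ` taking distinct reals to reals of
incomparable Turing degree and one real `z` such that every payoff set `D` has the same winner as
the intersection of `C` with the Turing invariant set of all reals that compute `z` or are Turing
equivalent to some `Φ y` with `y` in `D`. -/
theorem result : ∃ (C : Set (ℕ → Bool)) (Φ : (ℕ → Bool) → ℕ → Bool) (z : ℕ → Bool),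
    IsClosed C ∧ Continuous Φ ∧
    (∀ x y, x ≠ y → ¬ TuringReducible (charFn (Φ x)) (charFn (Φ y))) ∧
    (∀ y, ¬ TuringReducible (charFn z) (charFn (Φ y))) ∧
    ∀ D : Set (ℕ → Bool), TuringInvariant (attached z Φ D) ∧
      (WinsI (attached z Φ D ∩ C) ↔ WinsI D) ∧ (WinsII (attached z Φ D ∩ C) ↔ WinsII D) :=
  ⟨Tree.Rul, Tree.Phi, Tree.zz, Tree.isClosed_Rul, Tree.continuous_Phi,
    fun _ _ h => Tree.not_tLe h, Tree.not_tLe_zz, fun D => ⟨Tree.turingInvariant_Sat D,
      ⟨Tree.winsI_restr, Tree.winsI_lift⟩, ⟨Tree.winsII_restr, Tree.winsII_lift⟩⟩⟩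

end Pool.Agent.Results.MP_917879_lc.ClosedRules
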