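import Pool.Agent.H685R3.HMain

set_option autoImplicit false

namespace Pool.Agent.Results.MP_917879_lc.PermInvariantHyp

open Pool.Agent.H685R3

/-- For every payoff set `A` closed under primitive recursive permutations of the positions, the
set of all `u` with `ttJump (hyperJump u)` in `A` is closed under hyperarithmetical equivalence,
and each of the two players has a winning strategy in the game with this payoff set if and only if
the same player has one in the game with payoff set `A`. -/
theorem result (A : Set (ℕ → Bool)) (hA : PermInvariant A) :
    HypInvariant {u | ttJump (hyperJump u) ∈ A} ∧
      (WinsI {u | ttJump (hyperJump u) ∈ A} ↔ WinsI A) ∧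
      (WinsII {u | ttJump (hyperJump u) ∈ A} ↔ WinsII A) :=
  hmain hA

end Pool.Agent.Results.MP_917879_lc.PermInvariantHyp
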